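import Mathlib

set_option autoImplicit false

namespace Pool.Agent.Lib.MP_44c8f1_al

/-- A class of groups. -/
abbrev Cls := (G : Type) → [Group G] → Prop

/-- Formations (possibly empty). -/
structure IsForm (F : Cls) : Prop where
  fin : ∀ (G : Type) [Group G], F G → Finite G
  iso : ∀ (G K : Type) [Group G] [Group K], Nonempty (G ≃* K) → F G → F K
  quot : ∀ (G : Type) [Group G] (N : Subgroup G) [N.Normal], F G → F (G ⧸ N)
  res : ∀ (G : Type) [Group G] [Finite G] (N L : Subgroup G) [N.Normal] [L.Normal],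
    N ⊓ L = ⊥ → F (G ⧸ N) → F (G ⧸ L) → F G

/-- Saturated classes. -/
def IsSat (F : Cls) : Prop := ∀ (G : Type) [Group G] [Finite G], F (G ⧸ frattini G) → F G

/-- `N` is the kernel of an epimorphism from `X` onto a group of the class `F`. -/
def Res (F : Cls) (X : Type) [Group X] (N : Subgroup X) : Prop :=
  ∃ (A : Type) (_ : Group A) (f : X →* A), Function.Surjective f ∧ f.ker = N ∧ F A

theorem IsForm.surj {F : Cls} (hF : IsForm F) {G K : Type} [Group G] [Group K] (f : G →* K)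
    (hf : Function.Surjective f) (hG : F G) : F K :=
  hF.iso _ _ ⟨QuotientGroup.quotientKerEquivOfSurjective f hf⟩ (hF.quot G f.ker hG)

theorem Res.normal {F : Cls} {X : Type} [Group X] {N : Subgroup X} (h : Res F X N) :
    N.Normal := by
  obtain ⟨A, _, f, -, rfl, -⟩ := h
  infer_instance

theorem Res.out {F : Cls} (hF : IsForm F) {X G : Type} [Group X] [Group G] {N : Subgroup X}
    (h : Res F X N) (π : X →* G) (hπ : Function.Surjective π) (hN : N ≤ π.ker) : F G := by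
  obtain ⟨A, _, f, hf, rfl, hA⟩ := h
  refine hF.surj (f.liftOfSurjective hf ⟨π, hN⟩) ?_ hA
  intro g
  obtain ⟨x, rfl⟩ := hπ g
  exact ⟨f x, by simp⟩

theorem Res.of_quot {F : Cls} {X : Type} [Group X] {N : Subgroup X} [N.Normal]
    (h : F (X ⧸ N)) : Res F X N :=
  ⟨X ⧸ N, inferInstance, QuotientGroup.mk' N, QuotientGroup.mk'_surjective N,
    QuotientGroup.ker_mk' N, h⟩

theorem Res.quot {F : Cls} (hF : IsForm F) {X : Type} [Group X] {N L : Subgroup X} [L.Normal]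
    (h : Res F X N) (hNL : N ≤ L) : F (X ⧸ L) :=
  h.out hF (QuotientGroup.mk' L) (QuotientGroup.mk'_surjective L)
    (by rw [QuotientGroup.ker_mk']; exact hNL)

theorem Res.inf {F : Cls} (hF : IsForm F) {X : Type} [Group X] {N L : Subgroup X}
    (h₁ : Res F X N) (h₂ : Res F X L) : Res F X (N ⊓ L) := by
  obtain ⟨A, _, f, hf, rfl, hA⟩ := h₁
  obtain ⟨B, _, g, hg, rfl, hB⟩ := h₂
  have := hF.fin A hA
  have := hF.fin B hB
  let φ : X →* A × B := f.prod g
  refine ⟨φ.range, inferInstance, φ.rangeRestrict, φ.rangeRestrict_surjective, ?_, ?_⟩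
  · rw [MonoidHom.ker_rangeRestrict, MonoidHom.ker_prod]
  · let p : φ.range →* A := (MonoidHom.fst A B).comp φ.range.subtype
    let q : φ.range →* B := (MonoidHom.snd A B).comp φ.range.subtype
    have hp : Function.Surjective p := by
      intro a
      obtain ⟨x, rfl⟩ := hf a
      exact ⟨⟨φ x, x, rfl⟩, rfl⟩
    have hq : Function.Surjective q := by
      intro b
      obtain ⟨x, rfl⟩ := hg b
      exact ⟨⟨φ x, x, rfl⟩, rfl⟩
    refine hF.res φ.range p.ker q.ker ?_ ?_ ?_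
    · rw [eq_bot_iff]
      rintro ⟨⟨a, b⟩, hab⟩ ⟨h1, h2⟩
      have ha : a = 1 := h1
      have hb : b = 1 := h2
      subst ha hb
      rfl
    · exact hF.iso _ _ ⟨(QuotientGroup.quotientKerEquivOfSurjective p hp).symm⟩ hA
    · exact hF.iso _ _ ⟨(QuotientGroup.quotientKerEquivOfSurjective q hq).symm⟩ hB

theorem Res.comap {F : Cls} {X Y : Type} [Group X] [Group Y] {N : Subgroup X}
    (h : Res F X N) (φ : Y →* X) (hφ : φ.range ⊔ N = ⊤) : Res F Y (N.comap φ) := by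
  obtain ⟨A, _, f, hf, rfl, hA⟩ := h
  refine ⟨A, inferInstance, f.comp φ, ?_, (MonoidHom.comap_ker f φ).symm, hA⟩
  intro a
  obtain ⟨x, rfl⟩ := hf a
  have hx : x ∈ φ.range ⊔ f.ker := hφ ▸ Subgroup.mem_top x
  have hx' : x ∈ ((φ.range ⊔ f.ker : Subgroup X) : Set X) := hx
  rw [Subgroup.mul_normal] at hx'
  obtain ⟨u, ⟨y, rfl⟩, n, hn, rfl⟩ := hx'
  refine ⟨y, ?_⟩
  have hn' : f n = 1 := hn
  simp [hn']

theorem Res.comap_surj {F : Cls} {X Y : Type} [Group X] [Group Y] {N : Subgroup X}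
    (h : Res F X N) (φ : Y →* X) (hφ : Function.Surjective φ) : Res F Y (N.comap φ) :=
  h.comap φ (by rw [MonoidHom.range_eq_top.mpr hφ, top_sup_eq])

theorem Res.sat {F : Cls} (hF : IsForm F) (hS : IsSat F) {X : Type} [Group X] [Finite X]
    {N L : Subgroup X} [N.Normal] (h : Res F X L)
    (hmin : ∀ D : Subgroup X, N ≤ D → D ⊔ L = ⊤ → D = ⊤) : Res F X N := by
  refine Res.of_quot (hS _ ?_)
  refine h.out hF ((QuotientGroup.mk' (frattini (X ⧸ N))).comp (QuotientGroup.mk' N))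
    ((QuotientGroup.mk'_surjective _).comp (QuotientGroup.mk'_surjective _)) ?_
  rw [← MonoidHom.comap_ker, QuotientGroup.ker_mk']
  simp_rw [frattini, Order.radical, Subgroup.comap_iInf, le_iInf_iff]
  intro M hM
  have hD : IsCoatom (M.comap (QuotientGroup.mk' N)) :=
    Subgroup.isCoatom_comap_of_surjective (QuotientGroup.mk'_surjective N) hM
  by_contra hL
  have hND : N ≤ M.comap (QuotientGroup.mk' N) := by
    intro n hn
    have : QuotientGroup.mk' N n = 1 := by simpa using hn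
    rw [Subgroup.mem_comap, this]
    exact M.one_mem
  refine hD.1 (hmin _ hND (hD.2 _ ?_))
  exact left_lt_sup.mpr hL

/-- Epimorphic images of subdirect products of a group in `F₁` and a group in `F₂`. -/
def Join (F₁ F₂ : Cls) : Cls := fun G _ =>
  ∃ (X : Type) (_ : Group X) (_ : Finite X) (π : X →* G) (N₁ N₂ : Subgroup X),
    Function.Surjective π ∧ N₁ ⊓ N₂ ≤ π.ker ∧ Res F₁ X N₂ ∧ Res F₂ X N₁

theorem Join.surj {F₁ F₂ : Cls} {G K : Type} [Group G] [Group K] (f : G →* K)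
    (hf : Function.Surjective f) (hG : Join F₁ F₂ G) : Join F₁ F₂ K := by
  obtain ⟨X, _, _, π, N₁, N₂, hπ, hN, h₁, h₂⟩ := hG
  refine ⟨X, inferInstance, inferInstance, f.comp π, N₁, N₂, hf.comp hπ, ?_, h₁, h₂⟩
  intro x hx
  have : π x = 1 := hN hx
  simp [MonoidHom.mem_ker, this]

theorem isForm_join {F₁ F₂ : Cls} (hF₁ : IsForm F₁) (hF₂ : IsForm F₂) : IsForm (Join F₁ F₂) where
  fin := by
    intro G _ hG
    obtain ⟨X, _, _, π, N₁, N₂, hπ, -⟩ := hG
    exact Finite.of_surjective π hπ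
  iso := by
    rintro G K _ _ ⟨e⟩ hG
    exact hG.surj e.toMonoidHom e.surjective
  quot := by
    intro G _ N _ hG
    exact hG.surj (QuotientGroup.mk' N) (QuotientGroup.mk'_surjective N)
  res := by
    intro G _ _ N L _ _ hNL hN hL
    obtain ⟨X, _, _, π, N₁, N₂, hπ, hNk, hN₁, hN₂⟩ := hN
    obtain ⟨Y, _, _, ρ, L₁, L₂, hρ, hLk, hL₁, hL₂⟩ := hL
    let a : X × Y × G →* X := MonoidHom.fst _ _
    let b : X × Y × G →* Y := (MonoidHom.fst _ _).comp (MonoidHom.snd _ _)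
    let c : X × Y × G →* G := (MonoidHom.snd _ _).comp (MonoidHom.snd _ _)
    let Z : Subgroup (X × Y × G) :=
      (π.comp a).eqLocus ((QuotientGroup.mk' N).comp c) ⊓
        (ρ.comp b).eqLocus ((QuotientGroup.mk' L).comp c)
    have hZ : ∀ (x : X) (y : Y) (g : G), (x, y, g) ∈ Z ↔
        π x = QuotientGroup.mk' N g ∧ ρ y = QuotientGroup.mk' L g := fun x y g => Iff.rfl
    have ha : Function.Surjective (a.comp Z.subtype) := by
      intro x
      obtain ⟨g, hg⟩ := QuotientGroup.mk'_surjective N (π x)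
      obtain ⟨y, hy⟩ := hρ (QuotientGroup.mk' L g)
      exact ⟨⟨(x, y, g), (hZ x y g).mpr ⟨hg.symm, hy⟩⟩, rfl⟩
    have hb : Function.Surjective (b.comp Z.subtype) := by
      intro y
      obtain ⟨g, hg⟩ := QuotientGroup.mk'_surjective L (ρ y)
      obtain ⟨x, hx⟩ := hπ (QuotientGroup.mk' N g)
      exact ⟨⟨(x, y, g), (hZ x y g).mpr ⟨hx, hg.symm⟩⟩, rfl⟩
    have hc : Function.Surjective (c.comp Z.subtype) := by
      intro g
      obtain ⟨x, hx⟩ := hπ (QuotientGroup.mk' N g)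
      obtain ⟨y, hy⟩ := hρ (QuotientGroup.mk' L g)
      exact ⟨⟨(x, y, g), (hZ x y g).mpr ⟨hx, hy⟩⟩, rfl⟩
    refine ⟨Z, inferInstance, inferInstance, c.comp Z.subtype,
      N₁.comap (a.comp Z.subtype) ⊓ L₁.comap (b.comp Z.subtype),
      N₂.comap (a.comp Z.subtype) ⊓ L₂.comap (b.comp Z.subtype), hc, ?_,
      (hN₁.comap_surj _ ha).inf hF₁ (hL₁.comap_surj _ hb),
      (hN₂.comap_surj _ ha).inf hF₂ (hL₂.comap_surj _ hb)⟩
    rintro ⟨⟨x, y, g⟩, hz⟩ ⟨⟨h1, h2⟩, h3, h4⟩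
    obtain ⟨e1, e2⟩ := (hZ x y g).mp hz
    have hx : π x = 1 := hNk ⟨h1, h3⟩
    have hy : ρ y = 1 := hLk ⟨h2, h4⟩
    have hgN : g ∈ N := by
      rw [hx] at e1
      simpa using e1.symm
    have hgL : g ∈ L := by
      rw [hy] at e2
      simpa using e2.symm
    have hg : g ∈ N ⊓ L := ⟨hgN, hgL⟩
    rw [hNL] at hg
    exact hg

theorem res_bot {F : Cls} {G : Type} [Group G] (h : F G) : Res F G ⊥ :=
  ⟨G, inferInstance, MonoidHom.id G, Function.surjective_id, MonoidHom.ker_id, h⟩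

theorem res_top {F : Cls} (hF : IsForm F) {B : Type} [Group B] (h : F B) (G : Type) [Group G] :
    Res F G ⊤ := by
  have : Subsingleton (B ⧸ (⊤ : Subgroup B)) := QuotientGroup.subsingleton_quotient_top
  exact ⟨B ⧸ (⊤ : Subgroup B), inferInstance, 1, fun y => ⟨1, Subsingleton.elim _ _⟩,
    MonoidHom.ker_one, hF.quot B ⊤ h⟩

/-- The key step: a group in the join whose Frattini quotient lies in `F₁` lies in `F₁`. -/
theorem mem_of_join {H F₁ F₂ : Cls} (hH : IsForm H) (hHs : IsSat H) (hF₁ : IsForm F₁)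
    (hF₂ : IsForm F₂) (hHF : ∀ (G : Type) [Group G], H G → F₁ G)
    (hFH : ∀ (G : Type) [Group G], F₁ G → F₂ G → H G)
    {G : Type} [Group G] (hG : Join F₁ F₂ G) (hΦ : F₁ (G ⧸ frattini G)) : F₁ G := by
  obtain ⟨X, _, _, π, N₁, N, hπ, hk, hN, hN₁⟩ := hG
  have : Finite G := Finite.of_surjective π hπ
  have hL : Res F₁ X ((frattini G).comap π) := (Res.of_quot hΦ).comap_surj π hπ
  have hN₂ : Res F₁ X (N ⊓ (frattini G).comap π) := hN.inf hF₁ hL
  set N₂ : Subgroup X := N ⊓ (frattini G).comap π with hN₂def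
  have := hN₁.normal
  have := hN₂.normal
  have hsup : Res H X (N₁ ⊔ N₂) :=
    Res.of_quot (hFH _ (hN₂.quot hF₁ le_sup_right) (hN₁.quot hF₂ le_sup_left))
  obtain ⟨C, ⟨hC₁, hC₂⟩, hCmin⟩ :=
    (wellFounded_lt (α := Subgroup X)).has_min {C | N₁ ≤ C ∧ C ⊔ N₂ = ⊤} ⟨⊤, le_top, top_sup_eq _⟩
  have hr : C.subtype.range = C := C.range_subtype
  have h1 : Res F₁ C (N₂.comap C.subtype) := hN₂.comap _ (by rw [hr]; exact hC₂)
  have h2 : Res H C ((N₁ ⊔ N₂).comap C.subtype) :=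
    hsup.comap _ (by rw [hr, ← sup_assoc, sup_eq_left.mpr hC₁]; exact hC₂)
  have h3 : Res H C (N₁.comap C.subtype) := by
    refine h2.sat hH hHs ?_
    intro D hD hDtop
    have hD₁ : N₁ ≤ D.map C.subtype := by
      intro n hn
      exact ⟨⟨n, hC₁ hn⟩, hD hn, rfl⟩
    have hD₂ : D.map C.subtype ⊔ N₂ = ⊤ := by
      have e := congrArg (Subgroup.map C.subtype) hDtop
      rw [Subgroup.map_sup, ← MonoidHom.range_eq_map, hr] at e
      have e2 : Subgroup.map C.subtype ((N₁ ⊔ N₂).comap C.subtype) ≤ N₁ ⊔ N₂ :=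
        Subgroup.map_comap_le _ _
      rw [eq_top_iff, ← hC₂]
      refine sup_le ?_ le_sup_right
      calc C = D.map C.subtype ⊔ Subgroup.map C.subtype ((N₁ ⊔ N₂).comap C.subtype) := e.symm
        _ ≤ D.map C.subtype ⊔ N₂ :=
          sup_le le_sup_left (e2.trans (sup_le (hD₁.trans le_sup_left) le_sup_right))
    have hle : D.map C.subtype ≤ C := Subgroup.map_subtype_le D
    have heq : D.map C.subtype = C := by
      by_contra hne
      exact hCmin _ ⟨hD₁, hD₂⟩ (lt_of_le_of_ne hle hne)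
    apply Subgroup.map_injective C.subtype_injective
    rw [heq, ← MonoidHom.range_eq_map, hr]
  have h4 : Res F₁ C (N₁.comap C.subtype) := by
    obtain ⟨A, _, f, hf, hk', hA⟩ := h3
    exact ⟨A, inferInstance, f, hf, hk', hHF A hA⟩
  have h5 := h4.inf hF₁ h1
  refine h5.out hF₁ (π.comp C.subtype) ?_ ?_
  · have e := congrArg (Subgroup.map π) hC₂
    rw [Subgroup.map_sup, ← MonoidHom.range_eq_map, MonoidHom.range_eq_top.mpr hπ] at e
    have e2 : N₂.map π ≤ frattini G := Subgroup.map_le_iff_le_comap.mpr inf_le_right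
    have e3 : C.map π ⊔ frattini G = ⊤ := by
      rw [eq_top_iff, ← e]
      exact sup_le_sup_left e2 _
    have e4 : C.map π = ⊤ := frattini_nongenerating e3
    intro g
    have hg : g ∈ C.map π := e4 ▸ Subgroup.mem_top g
    obtain ⟨x, hx, rfl⟩ := hg
    exact ⟨⟨x, hx⟩, rfl⟩
  · rintro x ⟨hx1, hx2⟩
    exact hk ⟨hx1, hx2.1⟩

theorem sat_left {H M F₁ F₂ : Cls} (hH : IsForm H) (hHs : IsSat H) (hMs : IsSat M)
    (hF₁ : IsForm F₁) (hF₂ : IsForm F₂) (hHF : ∀ (G : Type) [Group G], H G → F₁ G)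
    (hFM : ∀ (G : Type) [Group G], F₁ G → M G)
    (hFH : ∀ (G : Type) [Group G], F₁ G → F₂ G → H G)
    (hjoin : ∀ X : Cls, IsForm X → (∀ (G : Type) [Group G], F₁ G → X G) →
      (∀ (G : Type) [Group G], F₂ G → X G) → ∀ (G : Type) [Group G], M G → X G) :
    IsSat F₁ := by
  intro G _ _ hΦ
  have hM : M G := hMs G (hFM _ hΦ)
  by_cases hne : ∃ (B : Type) (_ : Group B), F₂ B
  · obtain ⟨B, _, hB⟩ := hne
    refine mem_of_join hH hHs hF₁ hF₂ hHF hFH (hjoin _ (isForm_join hF₁ hF₂) ?_ ?_ G hM) hΦ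
    · intro K _ hK
      exact ⟨K, inferInstance, hF₁.fin K hK, MonoidHom.id K, ⊤, ⊥, Function.surjective_id,
        by simp, res_bot hK, res_top hF₂ hB K⟩
    · intro K _ hK
      exact ⟨K, inferInstance, hF₂.fin K hK, MonoidHom.id K, ⊥, ⊤, Function.surjective_id,
        by simp, res_top hF₁ hΦ K, res_bot hK⟩
  · exact hjoin F₁ hF₁ (fun _ _ h => h) (fun K _ hK => absurd ⟨K, inferInstance, hK⟩ hne) G hM

end Pool.Agent.Lib.MP_44c8f1_al
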