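import Pool.Agent.Lib.MP_44c8f1_al.Basic

set_option autoImplicit false

open scoped commutatorElement

namespace Pool.Agent.Lib.MP_44c8f1_al

/-- A split extension rebuilt from a subdirect square. -/
theorem prim_mem {F₁ : Cls} (hF₁ : IsForm F₁) {X G : Type} [Group X] [Group G] (π : X →* G)
    (hπ : Function.Surjective π) {N₁ N₂ : Subgroup X} [N₁.Normal] (hk : N₁ ⊓ N₂ ≤ π.ker)
    (hN₂ : Res F₁ X N₂) (c : G →* G) (h1 : ∀ g, ∀ n ∈ N₁, Commute (g⁻¹ * c g) (π n))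
    (h2 : ∀ n ∈ N₂, c (π n) = 1) (h3 : ∀ g, ∃ n ∈ N₁, g = π n * c g) : F₁ G := by
  let D : Subgroup (X × X) := ((QuotientGroup.mk' N₁).comp (MonoidHom.fst X X)).eqLocus
    ((QuotientGroup.mk' N₁).comp (MonoidHom.snd X X))
  have hD : ∀ p : X × X, p ∈ D ↔ p.2 * p.1⁻¹ ∈ N₁ := fun p => by
    change (p.1 : X ⧸ N₁) = p.2 ↔ _
    rw [eq_comm, QuotientGroup.eq_iff_div_mem, div_eq_mul_inv]
  let ψ : D →* G := MonoidHom.mk' (fun p => π (p.1.2 * p.1.1⁻¹) * c (π p.1.1)) (by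
    rintro ⟨⟨x, x'⟩, hx⟩ ⟨⟨y, y'⟩, hy⟩
    have h := (h1 (π x) _ ((hD _).1 hy)).eq
    simp only [Subgroup.coe_mul, Prod.fst_mul, Prod.snd_mul, map_mul, map_inv, mul_inv_rev] at h ⊢
    calc π x' * π y' * ((π y)⁻¹ * (π x)⁻¹) * (c (π x) * c (π y))
        = π x' * (π y' * (π y)⁻¹ * ((π x)⁻¹ * c (π x))) * c (π y) := by group
      _ = π x' * (π x)⁻¹ * c (π x) * (π y' * (π y)⁻¹ * c (π y)) := by rw [← h]; group)
  have ha : Function.Surjective ((MonoidHom.fst X X).comp D.subtype) := fun x =>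
    ⟨⟨(x, x), (hD _).2 (by simp)⟩, rfl⟩
  have hb : Function.Surjective ((MonoidHom.snd X X).comp D.subtype) := fun x =>
    ⟨⟨(x, x), (hD _).2 (by simp)⟩, rfl⟩
  refine ((hN₂.comap_surj _ ha).inf hF₁ (hN₂.comap_surj _ hb)).out hF₁ ψ (fun g => ?_) ?_
  · obtain ⟨n, hn, e⟩ := h3 g
    obtain ⟨y, rfl⟩ := hπ g
    refine ⟨⟨(y, n * y), (hD _).2 (by simpa using hn)⟩, ?_⟩
    change π (n * y * y⁻¹) * c (π y) = π y
    rw [mul_inv_cancel_right, ← e]
  · rintro ⟨⟨x, x'⟩, hx⟩ ⟨a1, a2⟩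
    have a1' : x ∈ N₂ := a1
    have a2' : x' ∈ N₂ := a2
    have e : π (x' * x⁻¹) = 1 := hk ⟨(hD _).1 hx, N₂.mul_mem a2' (N₂.inv_mem a1')⟩
    change π (x' * x⁻¹) * c (π x) = 1
    rw [e, h2 x a1', one_mul]

/-- A subgroup normalised by `C` and centralised by `S` is normal if `C S` is everything. -/
theorem normal_of_sup {G : Type} [Group G] {C S K : Subgroup G} [S.Normal] (h : C ⊔ S = ⊤)
    (h1 : ∀ c ∈ C, ∀ k ∈ K, c * k * c⁻¹ ∈ K) (h2 : ∀ s ∈ S, ∀ k ∈ K, Commute s k) :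
    K.Normal := by
  refine ⟨fun k hk g => ?_⟩
  have hg : g ∈ ((C ⊔ S : Subgroup G) : Set G) := h ▸ Subgroup.mem_top g
  rw [Subgroup.mul_normal] at hg
  obtain ⟨c, hc, s, hs, rfl⟩ := hg
  have := h1 c hc k hk
  have e : c * s * k * (c * s)⁻¹ = c * k * c⁻¹ := by
    rw [mul_assoc c s k, (h2 s hs k hk).eq]
    group
  exact e ▸ this

/-- A monolithic group with trivial Frattini subgroup in the join lies in one of the factors. -/
theorem mono_mem {F₁ F₂ : Cls} (hF₁ : IsForm F₁) (hF₂ : IsForm F₂) {G : Type} [Group G]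
    (hG : Join F₁ F₂ G) (hΦ : frattini G = ⊥)
    (hm : ∀ N L : Subgroup G, N.Normal → L.Normal → N ⊓ L = ⊥ → N = ⊥ ∨ L = ⊥) :
    F₁ G ∨ F₂ G := by
  obtain ⟨X, _, _, π, N₁, N₂, hπ, hk, hN₂, hN₁⟩ := hG
  have : Finite G := Finite.of_surjective π hπ
  have := hN₁.normal
  have := hN₂.normal
  by_cases e₂ : N₂.map π = ⊥
  · exact Or.inl (hN₂.out hF₁ π hπ ((Subgroup.map_eq_bot_iff _).1 e₂))
  by_cases e₁ : N₁.map π = ⊥
  · exact Or.inr (hN₁.out hF₂ π hπ ((Subgroup.map_eq_bot_iff _).1 e₁))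
  left
  have n₁ : (N₁.map π).Normal := Subgroup.Normal.map ‹_› π hπ
  have n₂ : (N₂.map π).Normal := Subgroup.Normal.map ‹_› π hπ
  have hc : ∀ a ∈ N₁.map π, ∀ b ∈ N₂.map π, Commute a b := by
    rintro _ ⟨x, hx, rfl⟩ _ ⟨y, hy, rfl⟩
    have : π ⁅x, y⁆ = 1 := hk (Subgroup.commutator_le_inf N₁ N₂
      (Subgroup.commutator_mem_commutator hx hy))
    rwa [map_commutatorElement, commutatorElement_eq_one_iff_commute] at this
  obtain ⟨S, ⟨nS, hS0, hS⟩, hmin⟩ := (wellFounded_lt (α := Subgroup G)).has_min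
    {S | S.Normal ∧ S ≠ ⊥ ∧ S ≤ N₁.map π ⊓ N₂.map π}
    ⟨_, inferInstance, fun e => (hm _ _ n₁ n₂ e).elim e₁ e₂, le_rfl⟩
  have hS₁ : S ≤ N₁.map π := hS.trans inf_le_left
  have hS₂ : S ≤ N₂.map π := hS.trans inf_le_right
  obtain ⟨C, hC, hSC⟩ : ∃ C : Subgroup G, IsCoatom C ∧ ¬ S ≤ C := by
    by_contra hn
    refine hS0 (eq_bot_iff.2 (hΦ ▸ ?_))
    simp_rw [frattini, Order.radical, le_iInf_iff]
    intro C hC
    by_contra h
    exact hn ⟨C, hC, h⟩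
  have hsup : C ⊔ S = ⊤ := hC.2 _ (left_lt_sup.2 hSC)
  have hinf : C ⊓ S = ⊥ := by
    by_contra hne
    refine hmin (C ⊓ S) ⟨normal_of_sup hsup (fun c hc k hk => ⟨C.mul_mem (C.mul_mem hc hk.1)
      (C.inv_mem hc), nS.conj_mem _ hk.2 _⟩) fun s hs k hk => hc s (hS₁ hs) k (hS₂ hk.2),
      hne, inf_le_right.trans hS⟩ (lt_of_le_of_ne inf_le_right fun e => hSC ?_)
    exact e ▸ inf_le_left
  have hC₂ : C ⊓ N₂.map π = ⊥ := by
    refine (hm (C ⊓ N₂.map π) S (normal_of_sup hsup (fun c hc k hk => ⟨C.mul_mem (C.mul_mem hc hk.1)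
      (C.inv_mem hc), n₂.conj_mem _ hk.2 _⟩) fun s hs k hk => hc s (hS₁ hs) k hk.2) nS
      ?_).resolve_right hS0
    rw [eq_bot_iff, ← hinf]
    exact inf_le_inf_right _ inf_le_left
  let q : C →* G ⧸ N₂.map π := (QuotientGroup.mk' _).comp C.subtype
  have hdec : ∀ g : G, ∃ s ∈ S, ∃ x ∈ C, g = s * x := fun g => by
    have hg : g ∈ ((S ⊔ C : Subgroup G) : Set G) := by
      rw [sup_comm, hsup]
      exact Subgroup.mem_top g
    rw [Subgroup.normal_mul] at hg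
    obtain ⟨s, hs, x, hx, rfl⟩ := hg
    exact ⟨s, hs, x, hx, rfl⟩
  have hmk : ∀ s ∈ S, ∀ x : G, ((s * x : G) : G ⧸ N₂.map π) = x := fun s hs x => by
    rw [QuotientGroup.mk_mul, (QuotientGroup.eq_one_iff s).2 (hS₂ hs), one_mul]
  have hq : Function.Bijective q := by
    refine ⟨(injective_iff_map_eq_one q).2 fun x hx => ?_, fun z => ?_⟩
    · have : (x : G) ∈ C ⊓ N₂.map π := ⟨x.2, (QuotientGroup.eq_one_iff _).1 hx⟩
      rw [hC₂] at this
      exact Subtype.ext this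
    · obtain ⟨g, rfl⟩ := QuotientGroup.mk_surjective z
      obtain ⟨s, hs, x, hx, rfl⟩ := hdec g
      exact ⟨⟨x, hx⟩, (hmk s hs x).symm⟩
  let c : G →* G := C.subtype.comp
    ((MulEquiv.ofBijective q hq).symm.toMonoidHom.comp (QuotientGroup.mk' _))
  have hcx : ∀ s ∈ S, ∀ x ∈ C, c (s * x) = x := fun s hs x hx => by
    have : (MulEquiv.ofBijective q hq).symm ((s * x : G) : G ⧸ N₂.map π) = ⟨x, hx⟩ := by
      rw [MulEquiv.symm_apply_eq]
      exact hmk s hs x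
    exact congrArg Subtype.val this
  refine prim_mem hF₁ π hπ hk hN₂ c (fun g n hn => ?_) (fun n hn => ?_) fun g => ?_
  · obtain ⟨s, hs, x, hx, rfl⟩ := hdec g
    rw [hcx s hs x hx]
    refine (hc _ ⟨n, hn, rfl⟩ _ (hS₂ ?_)).symm
    have := nS.conj_mem _ (S.inv_mem hs) x⁻¹
    simpa [mul_assoc] using this
  · have : ((π n : G) : G ⧸ N₂.map π) = 1 := (QuotientGroup.eq_one_iff _).2 ⟨n, hn, rfl⟩
    simp [c, this]
  · obtain ⟨s, hs, x, hx, rfl⟩ := hdec g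
    obtain ⟨n, hn, e⟩ := hS₁ hs
    exact ⟨n, hn, by rw [hcx s hs x hx, e]⟩

/-- A group of the join all of whose images in `F₂` lie in `H` belongs to `F₁`. -/
theorem mem_of_images {H F₁ F₂ : Cls} (hH : IsForm H) (hHs : IsSat H) (hF₁ : IsForm F₁)
    (hF₂ : IsForm F₂) (hHF : ∀ (G : Type) [Group G], H G → F₁ G)
    (hFH : ∀ (G : Type) [Group G], F₁ G → F₂ G → H G) (n : ℕ) :
    ∀ (G : Type) [Group G], Nat.card G = n → Join F₁ F₂ G →
      (∀ (K : Type) [Group K] (f : G →* K), Function.Surjective f → F₂ K → H K) → F₁ G := by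
  induction n using Nat.strong_induction_on with
  | _ n ih =>
    intro G _ hn hG h
    have : Finite G := (isForm_join hF₁ hF₂).fin G hG
    have hq : ∀ (N : Subgroup G) [N.Normal], N ≠ ⊥ → F₁ (G ⧸ N) := fun N _ hN => by
      refine ih _ ?_ _ rfl (hG.surj _ (QuotientGroup.mk'_surjective N)) fun K _ f hf =>
        h K (f.comp (QuotientGroup.mk' N)) (hf.comp (QuotientGroup.mk'_surjective N))
      rw [← hn, Subgroup.card_eq_card_quotient_mul_card_subgroup N]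
      exact lt_mul_of_one_lt_right Nat.card_pos ((Subgroup.one_lt_card_iff_ne_bot N).2 hN)
    by_cases hΦ : frattini G = ⊥
    · by_cases hm : ∀ N L : Subgroup G, N.Normal → L.Normal → N ⊓ L = ⊥ → N = ⊥ ∨ L = ⊥
      · exact (mono_mem hF₁ hF₂ hG hΦ hm).elim id fun h2 =>
          hHF G (h G (MonoidHom.id G) Function.surjective_id h2)
      · simp only [not_forall, not_or] at hm
        obtain ⟨N, L, _, _, e, h1, h2⟩ := hm
        exact hF₁.res G N L e (hq N h1) (hq L h2)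
    · exact mem_of_join hH hHs hF₁ hF₂ hHF hFH hG (hq _ hΦ)

end Pool.Agent.Lib.MP_44c8f1_al
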